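import Pool.Agent.Lib.MP_5349a4_pr.M.Iface3

/-! # Module GVOL (MSF): the probability of `good` does not depend on the volume; helper65 -/

set_option autoImplicit false
open MeasureTheory Set
open scoped ENNReal NNReal

namespace Pool.Agent.Lib.MP_5349a4_pr.H65

theorem finite_leb {d : ℕ} (lam : ℝ≥0) (x : Eu d) (L : ℝ) : IsFiniteMeasure (leb lam (bal x L)) := by
  unfold leb
  have : IsFiniteMeasure ((volume : Measure (Eu d)).restrict (bal x L)) :=
    ⟨by
      rw [Measure.restrict_apply_univ]
      exact measure_closedBall_lt_top⟩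
  exact inferInstanceAs (IsFiniteMeasure (lam • _))

theorem leb_restrict {d : ℕ} (lam : ℝ≥0) (x : Eu d) (r L : ℝ) (h : r ≤ L) :
    (leb lam (bal x L)).restrict (bal x r) = leb lam (bal x r) := by
  unfold leb
  have hm : MeasurableSet (bal x r) := Metric.isClosed_closedBall.measurableSet
  have hs : bal x r ∩ bal x L = bal x r := inter_eq_left.2 (Metric.closedBall_subset_closedBall h)
  rw [Measure.restrict_smul, Measure.restrict_restrict hm, hs]

theorem lf_of_finite {d : ℕ} {P : Set (Eu d)} (h : P.Finite) : LF P :=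
  fun _ _ => h.subset inter_subset_left

theorem pgood_eq (hinvd : InvDStatement) (hinvm : InvMStatement) (hres : ResStatement)
    (d : ℕ) (lam : ℝ≥0) (th : ℕ → ℝ) (L : ℝ) (i : ℕ) (hth : ∀ j, th j ≤ 2)
    (hL : 2 * i + 2 ≤ L) : pgood d lam th L i = pgood d lam th (2 * i + 2) i := by
  have hmeas : MeasurableSet {ω : Cfg (Eu d) | good th (pt ω) 0 i} := by
    have := ((hinvm d i).2.2.2.1 th).preimage (measurable_const.prodMk measurable_id :
      Measurable (fun ω : Cfg (Eu d) => ((0 : Eu d), ω)))
    exact this
  have hCM : CM (fun P : Set (Eu d) => ind (good th P 0 i)) := by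
    unfold CM ind
    exact Measurable.ite hmeas measurable_const measurable_const
  have hint : ∀ M : ℝ, pgood d lam th M i =
      ∫⁻ ω, ind (good th (pt ω) 0 i) ∂PL (leb lam (bal (0 : Eu d) M)) := by
    intro M
    unfold pgood
    rw [← lintegral_indicator_one hmeas]
    refine lintegral_congr fun ω => ?_
    by_cases h : good th (pt ω) 0 i
    · rw [indicator_of_mem (by exact h)]
      simp [ind, h]
    · rw [indicator_of_notMem (by exact h)]
      simp [ind, h]
  have := finite_leb lam (0 : Eu d) L
  have h1 := (hres (Eu d) (leb lam (bal (0 : Eu d) L)) (bal (0 : Eu d) (2 * i + 2))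
    Metric.isClosed_closedBall.measurableSet).1 (fun P => ind (good th P 0 i)) hCM
  rw [leb_restrict lam 0 _ _ hL] at h1
  rw [hint, hint, ← h1]
  refine lintegral_congr fun ω => ?_
  have hf : (pt ω).Finite := Set.finite_range _
  have hf' : (pt ω ∩ bal (0 : Eu d) (2 * i + 2)).Finite := hf.subset inter_subset_left
  have hiff : good th (pt ω) 0 i ↔ good th (pt ω ∩ bal (0 : Eu d) (2 * i + 2)) 0 i := by
    constructor
    · intro h
      exact ((hinvd d (pt ω) (pt ω ∩ bal (0 : Eu d) (2 * i + 2)) 0 (lf_of_finite hf)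
        (lf_of_finite hf')).2.2.2.2.1 th i hth h (by rw [inter_assoc, inter_self])).1
    · intro h
      exact ((hinvd d (pt ω ∩ bal (0 : Eu d) (2 * i + 2)) (pt ω) 0 (lf_of_finite hf')
        (lf_of_finite hf)).2.2.2.2.1 th i hth h (by rw [inter_assoc, inter_self])).1
  simp only [hiff]

theorem gvol (hinvd : InvDStatement) (hinvm : InvMStatement) (hres : ResStatement) :
    GVolStatement := by
  intro d lam th L L' i _ hth hL hL'
  rw [pgood_eq hinvd hinvm hres d lam th L i hth hL, pgood_eq hinvd hinvm hres d lam th L' i hth hL']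

end Pool.Agent.Lib.MP_5349a4_pr.H65
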