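import Pool.Agent.Lib.MP_5349a4_pr.M.Iface4

/-! # Module RESAMP (MSF): resampling a stopping set; helper65 -/

set_option autoImplicit false
open MeasureTheory Set
open scoped ENNReal NNReal

namespace Pool.Agent.Lib.MP_5349a4_pr.H65

instance sfinite_PL {E : Type} [MeasurableSpace E] (ρ : Measure E) [IsFiniteMeasure ρ] :
    SFinite (PL ρ) := by
  unfold PL
  infer_instance

theorem resamp (hsmp : SmpStatement) (hres : ResStatement) (hmr : MRestrStatement)
    (hmo : MOpsStatement) : ResampStatement := by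
  intro E _ _ ρ _ _ W f hW hf
  obtain ⟨r, hrm, hr⟩ := hmr (Cfg E) E {q | q.2 ∈ W (pt q.1)}
    (hW.meas.preimage (measurable_snd.prodMk measurable_fst))
  obtain ⟨a, ham, ha⟩ := hmo.1 E
  -- the functional
  let F : Set E → Set E → ℝ≥0∞ := fun X Y => ∫⁻ ω', f X (Y ∪ (pt ω' ∩ W X)) ∂PL ρ
  have hstop : ∀ P : Set E, P.Finite → W (P ∩ W P) = W P := by
    intro P hP
    refine hW.stop P (P ∩ W P) hP (hP.subset inter_subset_left) ?_
    rw [inter_assoc, inter_self]
  have hfin : ∀ ω : Cfg E, (pt ω).Finite := fun ω => Set.finite_range _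
  have hre : ∀ ω ω' : Cfg E, pt ω' ∩ W (pt ω) = pt (r (ω, ω')) := by
    intro ω ω'
    rw [hr]
    rfl
  have hFm : Measurable (fun q : Cfg E × Cfg E => F (pt q.1) (pt q.2)) := by
    have h1 : Measurable (fun p : (Cfg E × Cfg E) × Cfg E =>
        f (pt p.1.1) (pt p.1.2 ∪ (pt p.2 ∩ W (pt p.1.1)))) := by
      have h2 : (fun p : (Cfg E × Cfg E) × Cfg E =>
          f (pt p.1.1) (pt p.1.2 ∪ (pt p.2 ∩ W (pt p.1.1)))) =
          (fun q : Cfg E × Cfg E => f (pt q.1) (pt q.2)) ∘
            (fun p : (Cfg E × Cfg E) × Cfg E => (p.1.1, a (p.1.2, r (p.1.1, p.2)))) := by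
        funext p
        simp only [Function.comp, ha, hre]
      rw [h2]
      refine hf.comp ?_
      exact (measurable_fst.comp measurable_fst).prodMk (ham.comp
        ((measurable_snd.comp measurable_fst).prodMk (hrm.comp
          ((measurable_fst.comp measurable_fst).prodMk measurable_snd))))
    exact h1.lintegral_prod_right'
  have h1 := hsmp E ρ W F hW hFm
  have h2 : ∫⁻ ω, ∫⁻ ω', f (pt ω ∩ W (pt ω)) ((pt ω \ W (pt ω)) ∪ (pt ω' ∩ W (pt ω))) ∂PL ρ ∂PL ρ
      = ∫⁻ ω, F (pt ω ∩ W (pt ω)) (pt ω \ W (pt ω)) ∂PL ρ := by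
    refine lintegral_congr fun ω => ?_
    simp only [F, hstop (pt ω) (hfin ω)]
  rw [h2, h1]
  refine lintegral_congr fun ω => ?_
  simp only [F, hstop (pt ω) (hfin ω)]
  -- restriction to the complement
  have hA : MeasurableSet (W (pt ω)) := by
    have := hW.meas.preimage (measurable_id.prodMk measurable_const :
      Measurable (fun e : E => (e, ω)))
    exact this
  have h3 := (hres E ρ (W (pt ω))ᶜ hA.compl).2 (fun X Y => f (pt ω ∩ W (pt ω)) (X ∪ Y)) (by
    have h4 : (fun q : Cfg E × Cfg E => f (pt ω ∩ W (pt ω)) (pt q.1 ∪ pt q.2)) =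
        (fun q : Cfg E × Cfg E => f (pt q.1) (pt q.2)) ∘
          (fun q : Cfg E × Cfg E => (r (ω, ω), a q)) := by
      funext q
      simp only [Function.comp, ha, hre]
    rw [h4]
    exact hf.comp (measurable_const.prodMk ham))
  have h5 : ∀ X : Set E, X ∩ (W (pt ω))ᶜ = X \ W (pt ω) := fun X => rfl
  have h6 : ∀ X : Set E, X \ (W (pt ω))ᶜ = X ∩ W (pt ω) := fun X => by
    rw [sdiff_compl]
  simp only [h5, h6] at h3
  rw [← h3]
  refine lintegral_congr fun ω' => ?_
  rw [sdiff_union_inter]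

end Pool.Agent.Lib.MP_5349a4_pr.H65
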